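import Pool.Agent.LGD.Stmts

/-!
# Squad LGD, row RES: the final theorem
-/

set_option autoImplicit false

namespace Pool.Agent.LGD.H26

open Finset Pool.Agent.LGD

/-- the Liouville function with values in `ℤˣ` -/
noncomputable def lio (n : ℕ) : ℤˣ := (-1) ^ ArithmeticFunction.cardFactors n

theorem lio_mul : PM lio := by
  intro a b ha hb
  unfold lio
  rw [ArithmeticFunction.cardFactors_mul ha.ne' hb.ne', pow_add]

theorem lio_two : lio 2 = -1 := by
  unfold lio
  rw [ArithmeticFunction.cardFactors_apply_prime Nat.prime_two, pow_one]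

theorem lio_iff (n : ℕ) : lio n = -1 ↔ Odd (ArithmeticFunction.cardFactors n) := by
  unfold lio
  rcases Nat.even_or_odd (ArithmeticFunction.cardFactors n) with h | h
  · rw [h.neg_one_pow]
    constructor
    · intro h1
      exact absurd h1 (by decide)
    · intro h1
      exact absurd h1 (Nat.not_odd_iff_even.mpr h)
  · rw [h.neg_one_pow]
    exact ⟨fun _ => h, fun _ => rfl⟩

theorem res (hfin : FinStmt) (hsma : SmaStmt) : ResStmt := by
  obtain ⟨C, hC, hM⟩ := hfin 2 (by norm_num)
  have hC' : (1 : ℝ) ≤ C := by exact_mod_cast hC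
  refine ⟨1 / (C * 2 ^ C), C, by positivity, ?_⟩
  intro k hk
  have hk' : (1 : ℝ) ≤ k := by exact_mod_cast hk
  set L := Real.log (2 * k) with hL
  have hlog2 : (1 : ℝ) / 2 ≤ Real.log 2 := by
    have := Real.log_two_gt_d9
    linarith
  have hL2 : Real.log 2 ≤ L := Real.log_le_log (by norm_num) (by linarith)
  have hL0 : 0 < L := by linarith
  set N := ((Ioo (k ^ 2) ((k + 1) ^ 2)).filter
      (fun m => Odd (ArithmeticFunction.cardFactors m))).card with hN
  have hkey : (k : ℝ) ≤ C * (2 * L) ^ C * N := by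
    by_cases hlt : C ≤ k
    · have h1 := hM k lio (-1) hlt lio_mul lio_two
      have h2 : NS lio (-1) k = (Ioo (k ^ 2) ((k + 1) ^ 2)).filter
          (fun m => Odd (ArithmeticFunction.cardFactors m)) := by
        unfold NS
        apply filter_congr
        intro n _
        rw [lio_iff]
      rw [h2, ← hN] at h1
      have h3 : (k : ℝ) ≤ C * ((Nat.log 2 k : ℕ) : ℝ) ^ C * N := by exact_mod_cast h1
      have h4 : ((Nat.log 2 k : ℕ) : ℝ) ≤ 2 * L := by
        have h5 : ((2 : ℝ) ^ (Nat.log 2 k)) ≤ 2 * k := by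
          have h51 : 2 ^ (Nat.log 2 k) ≤ k := Nat.pow_log_le_self 2 (by omega)
          have h52 : ((2 : ℝ) ^ (Nat.log 2 k)) ≤ k := by exact_mod_cast h51
          linarith
        have h6 := Real.log_le_log (by positivity) h5
        rw [Real.log_pow, ← hL] at h6
        have h7 : ((Nat.log 2 k : ℕ) : ℝ) * (1 / 2) ≤ ((Nat.log 2 k : ℕ) : ℝ) * Real.log 2 :=
          mul_le_mul_of_nonneg_left hlog2 (by positivity)
        linarith
      have h8 : (((Nat.log 2 k : ℕ) : ℝ)) ^ C ≤ (2 * L) ^ C :=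
        pow_le_pow_left₀ (by positivity) h4 C
      calc (k : ℝ) ≤ C * ((Nat.log 2 k : ℕ) : ℝ) ^ C * N := h3
        _ ≤ C * (2 * L) ^ C * N := by
            apply mul_le_mul_of_nonneg_right _ (by positivity)
            exact mul_le_mul_of_nonneg_left h8 (by positivity)
    · obtain ⟨m, hm1, hm2, hm3⟩ := hsma k hk
      have hpos : 1 ≤ N := card_pos.mpr ⟨m, mem_filter.mpr ⟨mem_Ioo.mpr ⟨hm1, hm2⟩, hm3⟩⟩
      have hpos' : (1 : ℝ) ≤ N := by exact_mod_cast hpos
      have h1 : (k : ℝ) ≤ C := by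
        have : k ≤ C := by omega
        exact_mod_cast this
      have h2 : (1 : ℝ) ≤ (2 * L) ^ C := one_le_pow₀ (by linarith)
      calc (k : ℝ) ≤ C * 1 * 1 := by linarith
        _ ≤ C * (2 * L) ^ C * N := by gcongr
  rw [mul_pow] at hkey
  rw [div_le_iff₀ (by positivity), one_div, ← div_eq_inv_mul, div_le_iff₀ (by positivity)]
  linarith

end Pool.Agent.LGD.H26
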