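import Pool.Agent.Helper72_OPH.Final
import Pool.Agent.Helper21_LGD.CHG
import Pool.Agent.Helper70_LGD.CT1
import Pool.Agent.Helper75_LGD.CT2
import Pool.Agent.Helper13_LGD.CT3
import Pool.Agent.Helper94_LGD.PTL
import Pool.Agent.Helper3_LGD.TEL
import Pool.Agent.Helper77_LGD.GDB
import Pool.Agent.Helper24_LGD.PAT
import Pool.Agent.Helper42_LGD.MAI
import Pool.Agent.Helper26_LGD.FIN
import Pool.Agent.Helper23_LGD.SMA
import Pool.Agent.Helper26_LGD.RES

set_option autoImplicit false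

/-! Squad LGD (MP_5f6ee5_nt): assembly of the rows. -/

namespace Pool.Agent.LGD.H26

open Pool.Agent.LGD

theorem ptlStmt : PtlStmt :=
  Pool.Agent.LGD.H94.ptl (Pool.Agent.OPH.H44.gr2 Pool.Agent.OPH.H72.scaStmt)
    Pool.Agent.OPH.H28.ord

theorem ct3Stmt : Ct3Stmt :=
  Pool.Agent.LGD.H13.ct3 Pool.Agent.LGD.H70.ct1 Pool.Agent.LGD.H75.ct2
    Pool.Agent.Helper91_OPG.GAP.result

theorem patStmt : PatStmt :=
  Pool.Agent.LGD.H24.pat ptlStmt Pool.Agent.LGD.H3.tel Pool.Agent.LGD.H77.gdb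
    Pool.Agent.OPG.H17.bad

theorem maiStmt : MaiStmt :=
  Pool.Agent.LGD.H42.mai Pool.Agent.LGD.H21.chg ct3Stmt patStmt

theorem finStmt : FinStmt := fin maiStmt Pool.Agent.OPH.H72.dv2Stmt

theorem resStmt : ResStmt := res finStmt Pool.Agent.LGD.H23.sma

end Pool.Agent.LGD.H26
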